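import Pool.Agent.V5helper98.ZD.DPROP

/-!
# Project ZD, job COMM: commutation with the right Hecke operators
-/

set_option autoImplicit false

open scoped InnerProductSpace

namespace Pool.Agent.V5helper98.ZD

open Pool.Agent.H496R3.ZS (Ell permIso dl dl_apply inner_dl_left)
open Pool.Agent.Q169.ZD

noncomputable section

open scoped Classical

section

variable {G : Type} [Group G] {E : Ext G} {I : Type} [Fintype I] {q : G → ℝ}

omit [Fintype I] in
theorem comm_add {x y : Ell (I × G) →L[ℂ] Ell (I × G)} (hx : Comm E I q x) (hy : Comm E I q y) :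
    Comm E I q (x + y) :=
  ⟨fun s hs => by
    rw [ContinuousLinearMap.add_comp, ContinuousLinearMap.comp_add, hx.1 s hs, hy.1 s hs],
   fun h hh => by
    rw [ContinuousLinearMap.add_comp, ContinuousLinearMap.comp_add, hx.2 h hh, hy.2 h hh]⟩

omit [Fintype I] in
theorem comm_zero : Comm E I q 0 :=
  ⟨fun s _ => by rw [ContinuousLinearMap.zero_comp, ContinuousLinearMap.comp_zero],
   fun h _ => by rw [ContinuousLinearMap.zero_comp, ContinuousLinearMap.comp_zero]⟩

omit [Fintype I] in
theorem comm_smul (c : ℂ) {x : Ell (I × G) →L[ℂ] Ell (I × G)} (hx : Comm E I q x) :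
    Comm E I q (c • x) :=
  ⟨fun s hs => by
    rw [ContinuousLinearMap.smul_comp, ContinuousLinearMap.comp_smul, hx.1 s hs],
   fun h hh => by
    rw [ContinuousLinearMap.smul_comp, ContinuousLinearMap.comp_smul, hx.2 h hh]⟩

omit [Fintype I] in
theorem comm_comp {x y : Ell (I × G) →L[ℂ] Ell (I × G)} (hx : Comm E I q x) (hy : Comm E I q y) :
    Comm E I q (x ∘L y) :=
  ⟨fun s hs => by
    rw [ContinuousLinearMap.comp_assoc, hy.1 s hs, ← ContinuousLinearMap.comp_assoc, hx.1 s hs,
      ContinuousLinearMap.comp_assoc],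
   fun h hh => by
    rw [ContinuousLinearMap.comp_assoc, hy.2 h hh, ← ContinuousLinearMap.comp_assoc, hx.2 h hh,
      ContinuousLinearMap.comp_assoc]⟩

omit [Fintype I] in
theorem comm_sum {ι : Type} (t : Finset ι) (x : ι → Ell (I × G) →L[ℂ] Ell (I × G))
    (h : ∀ i ∈ t, Comm E I q (x i)) : Comm E I q (∑ i ∈ t, x i) := by
  induction t using Finset.induction_on with
  | empty => rw [Finset.sum_empty]; exact comm_zero
  | insert a s ha ih =>
    rw [Finset.sum_insert ha]
    exact comm_add (h a (Finset.mem_insert_self a s))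
      (ih fun i hi => h i (Finset.mem_insert_of_mem hi))

omit [Fintype I] in
theorem comm_pm (σ : Equiv.Perm I) {h : G} (hh : E.len h = 0) :
    Comm E I q (pm (Equiv.prodCongr σ (Equiv.mulLeft h))) := by
  constructor
  · intro s _
    refine ContinuousLinearMap.ext fun F => ell_ext fun p => ?_
    rw [ContinuousLinearMap.comp_apply, ContinuousLinearMap.comp_apply, pm_apply, rS_apply,
      rS_apply, pm_apply, pm_apply]
    have h1 : (Equiv.prodCongr σ (Equiv.mulLeft h)) p = (σ p.1, h * p.2) := rfl
    have h2 : (Equiv.prodCongr σ (Equiv.mulLeft h)) (p.1, p.2 * s) = (σ p.1, h * (p.2 * s)) := rfl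
    rw [h1, h2]
    dsimp only
    rw [mul_assoc h p.2 s, len_zmul E hh, len_zmul E hh]
  · intro g _
    refine ContinuousLinearMap.ext fun F => ell_ext fun p => ?_
    rw [ContinuousLinearMap.comp_apply, ContinuousLinearMap.comp_apply, pm_apply, rH_apply,
      rH_apply, pm_apply]
    have h1 : (Equiv.prodCongr σ (Equiv.mulLeft h)) p = (σ p.1, h * p.2) := rfl
    have h2 : (Equiv.prodCongr σ (Equiv.mulLeft h)) (p.1, p.2 * g) = (σ p.1, h * (p.2 * g)) := rfl
    rw [h1, h2]
    dsimp only
    rw [mul_assoc h p.2 g]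

omit [Fintype I] in
theorem comm_msk (A : Set I) : Comm E I q (msk {p : I × G | p.1 ∈ A}) := by
  constructor
  · intro s _
    refine ContinuousLinearMap.ext fun F => ell_ext fun p => ?_
    rw [ContinuousLinearMap.comp_apply, ContinuousLinearMap.comp_apply, msk_apply, rS_apply,
      rS_apply, msk_apply, msk_apply]
    by_cases hp : p.1 ∈ A
    · rw [if_pos (show p ∈ {p : I × G | p.1 ∈ A} from hp),
        if_pos (show (p.1, p.2 * s) ∈ {p : I × G | p.1 ∈ A} from hp),
        if_pos (show p ∈ {p : I × G | p.1 ∈ A} from hp)]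
    · rw [if_neg (show p ∉ {p : I × G | p.1 ∈ A} from hp),
        if_neg (show (p.1, p.2 * s) ∉ {p : I × G | p.1 ∈ A} from hp),
        if_neg (show p ∉ {p : I × G | p.1 ∈ A} from hp)]
      simp
  · intro g _
    refine ContinuousLinearMap.ext fun F => ell_ext fun p => ?_
    rw [ContinuousLinearMap.comp_apply, ContinuousLinearMap.comp_apply, msk_apply, rH_apply,
      rH_apply, msk_apply]
    rfl

end

section

variable {G : Type} [Group G] {E : Ext G} {I : Type} [Fintype I] (C : Cx E I) {q : G → ℝ}

theorem comm_Dh : Comm E I q C.Dh := by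
  unfold Cx.Dh
  refine comm_sum _ _ fun j _ => comm_sum _ _ fun k _ => comm_sum _ _ fun h hh => ?_
  have hD : C.D j k h ≠ 0 := Finsupp.mem_support_iff.1 hh
  have hl := C.D_len j k h hD
  refine comm_smul _ (comm_comp ?_ (comm_pm _ (by rw [E.len_inv, hl])))
  exact comm_msk {j}

omit [Fintype I] in
theorem comm_adj {x : Ell (I × G) →L[ℂ] Ell (I × G)} (hx : Comm E I q x) :
    Comm E I q (ContinuousLinearMap.adjoint x) := by
  constructor
  · intro s hs
    have h := congrArg ContinuousLinearMap.adjoint (hx.1 s hs)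
    rw [ContinuousLinearMap.adjoint_comp, ContinuousLinearMap.adjoint_comp, adj_rS q hs] at h
    exact h.symm
  · intro g hg
    have h := congrArg ContinuousLinearMap.adjoint (hx.2 g⁻¹ (by rw [E.len_inv, hg]))
    rw [ContinuousLinearMap.adjoint_comp, ContinuousLinearMap.adjoint_comp, adj_rH, inv_inv] at h
    exact h.symm

/-- operators which preserve the image of a self-adjoint projection, together with their
adjoints, commute with the projection -/
theorem commute_of_inv {V : Type} [NormedAddCommGroup V] [InnerProductSpace ℂ V] [CompleteSpace V]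
    {P R R' : V →L[ℂ] V} (hP : ContinuousLinearMap.adjoint P = P)
    (hR : ContinuousLinearMap.adjoint R' = R)
    (h1 : P ∘L (R ∘L P) = R ∘L P) (h2 : P ∘L (R' ∘L P) = R' ∘L P) : P ∘L R = R ∘L P := by
  have h := congrArg ContinuousLinearMap.adjoint h2
  rw [ContinuousLinearMap.adjoint_comp, ContinuousLinearMap.adjoint_comp, hP, hR,
    ContinuousLinearMap.comp_assoc, h1] at h
  exact h.symm

theorem comm_P (hPR : S_PROJ G E I C) (hq : Wt E q) : Comm E I q (C.P q) := by
  obtain ⟨hM, hid, hadj, -, -, -⟩ := hPR q hq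
  constructor
  · intro s hs
    have h1 : C.P q ∘L (rS E I q s ∘L C.P q) = rS E I q s ∘L C.P q :=
      ContinuousLinearMap.ext fun F => hid _ (inM_rS hq hs _ (hM F))
    exact commute_of_inv hadj (adj_rS q hs) h1 h1
  · intro g hg
    have h1 : ∀ g : G, E.len g = 0 → C.P q ∘L (rH I g ∘L C.P q) = rH I g ∘L C.P q :=
      fun g hg => ContinuousLinearMap.ext fun F => hid _ (inM_rH hg _ (hM F))
    refine commute_of_inv hadj (R' := rH I g⁻¹) ?_ (h1 g hg) (h1 g⁻¹ (by rw [E.len_inv, hg]))
    rw [adj_rH, inv_inv]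

end

/-- **JOB COMM** -/
theorem t_COMM (G : Type) [Group G] (E : Ext G) (I : Type) [Fintype I] (C : Cx E I)
    (hPR : S_PROJ G E I C) : S_COMM G E I C := fun _ hq =>
  ⟨comm_P C hPR hq, comm_Dh C, comm_adj (comm_Dh C), fun A => comm_msk A⟩

end

end Pool.Agent.V5helper98.ZD
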