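import Pool.Agent.Q169.ZD.Stm

/-!
# Project ZD, job CONT: the weights `q₀ * p ^ t` and the continuity of the projection in `t`
-/

set_option autoImplicit false

open scoped InnerProductSpace

namespace Pool.Agent.V5helper98.ZD

open Pool.Agent.H496R3.ZS (Ell permIso dl dl_apply inner_dl_left)
open Pool.Agent.Q169.ZD

noncomputable section

open scoped Classical

/-- the products `q₀ * p ^ t` of weight functions are weight functions -/
theorem wt_rpow {G : Type} [Group G] {E : Ext G} {q₀ p : G → ℝ} (h₀ : Wt E q₀) (hp : Wt E p)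
    (t : ℝ) : Wt E (fun g => q₀ g * p g ^ t) where
  pos g := mul_pos (h₀.pos g) (Real.rpow_pos_of_pos (hp.pos g) t)
  one := by simp [h₀.one, hp.one]
  zero_mul h hh g := by simp only [h₀.zero_mul h hh g, hp.zero_mul h hh g]
  mul_zero h hh g := by simp only [h₀.mul_zero h hh g, hp.mul_zero h hh g]
  mul s hs g hg := by
    simp only [h₀.mul s hs g hg, hp.mul s hs g hg]
    rw [Real.mul_rpow (hp.pos g).le (hp.pos s).le]
    ring
  smul s hs g hg := by
    simp only [h₀.smul s hs g hg, hp.smul s hs g hg]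
    rw [Real.mul_rpow (hp.pos s).le (hp.pos g).le]
    ring

/-- **JOB CONT** -/
theorem t_CONT (G : Type) [Group G] (E : Ext G) (I : Type) [Fintype I] (C : Cx E I) :
    S_CONT G E I C := by
  intro q₀ p h₀ hp
  refine ⟨fun t => wt_rpow h₀ hp t, ?_⟩
  have hc : ∀ g, Continuous fun t : ℝ => q₀ g * p g ^ t := fun g =>
    continuous_const.mul (Real.continuous_const_rpow (hp.pos g).ne')
  unfold Cx.P
  refine continuous_finsetSum _ fun j _ => continuous_finsetSum _ fun u _ =>
    continuous_finsetSum _ fun v _ => ?_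
  refine Continuous.smul (f := fun t : ℝ =>
    ((Real.sqrt (q₀ u * p u ^ t) * Real.sqrt (q₀ v * p v ^ t) /
      C.wt (fun g => q₀ g * p g ^ t) j : ℝ) : ℂ)) ?_ continuous_const
  refine Complex.continuous_ofReal.comp ?_
  refine Continuous.div ((Real.continuous_sqrt.comp (hc u)).mul (Real.continuous_sqrt.comp (hc v)))
    ?_ ?_
  · unfold Cx.wt
    exact continuous_finsetSum _ fun w _ => hc w
  · intro t
    unfold Cx.wt
    refine (Finset.sum_pos (fun w _ => (wt_rpow h₀ hp t).pos w) ⟨1, ?_⟩).ne'
    rw [C.mem_U]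
    exact Subgroup.one_mem _

end

end Pool.Agent.V5helper98.ZD
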