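import Pool.Agent.V5helper98.ZD.RIGHT

/-!
# Project ZD, job DPROP: properties of the coboundary operator, its adjoint and the grading
-/

set_option autoImplicit false

open scoped InnerProductSpace

namespace Pool.Agent.V5helper98.ZD

open Pool.Agent.H496R3.ZS (Ell permIso dl dl_apply inner_dl_left)
open Pool.Agent.Q169.ZD

noncomputable section

open scoped Classical

section basic

variable {X : Type}

theorem sub_val (F F' : Ell X) (p : X) : (F - F') p = F p - F' p := rfl

theorem neg_val (F : Ell X) (p : X) : (-F) p = - F p := rfl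

theorem zero_val (p : X) : (0 : Ell X) p = 0 := rfl

theorem sum_val {ι : Type} (s : Finset ι) (f : ι → Ell X) (p : X) :
    (∑ i ∈ s, f i) p = ∑ i ∈ s, f i p := by
  induction s using Finset.induction_on with
  | empty => simp [zero_val]
  | insert a s ha ih => rw [Finset.sum_insert ha, Finset.sum_insert ha, add_val, ih]

theorem sum_op_val {ι : Type} (s : Finset ι) (x : ι → Ell X →L[ℂ] Ell X) (F : Ell X) (p : X) :
    (∑ i ∈ s, x i) F p = ∑ i ∈ s, x i F p := by
  rw [_root_.sum_apply, sum_val]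

/-- the operator and its adjoint preserve finite supports -/
def FS2 (x : Ell X →L[ℂ] Ell X) : Prop := FS x ∧ FS (ContinuousLinearMap.adjoint x)

theorem fs_add {x y : Ell X →L[ℂ] Ell X} (hx : FS x) (hy : FS y) : FS (x + y) := by
  intro F hF
  refine ((hx F hF).union (hy F hF)).subset ?_
  intro p hp
  by_contra hc
  rw [Set.mem_union, not_or] at hc
  apply hp
  have h1 : x F p = 0 := Function.notMem_support.1 hc.1
  have h2 : y F p = 0 := Function.notMem_support.1 hc.2
  change (x F + y F) p = 0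
  rw [add_val, h1, h2, add_zero]

theorem fs_smul (c : ℂ) {x : Ell X →L[ℂ] Ell X} (hx : FS x) : FS (c • x) := by
  intro F hF
  refine (hx F hF).subset ?_
  intro p hp
  by_contra hc
  apply hp
  have h1 : x F p = 0 := Function.notMem_support.1 hc
  change (c • x F) p = 0
  rw [smul_val, h1, mul_zero]

theorem fs_zero : FS (0 : Ell X →L[ℂ] Ell X) := by
  intro F _
  have : (Function.support fun p => (0 : Ell X →L[ℂ] Ell X) F p) = ∅ := by
    rw [Function.support_eq_empty_iff]
    rfl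
  rw [this]
  exact Set.finite_empty

theorem fs_comp {x y : Ell X →L[ℂ] Ell X} (hx : FS x) (hy : FS y) : FS (x ∘L y) :=
  fun F hF => hx (y F) (hy F hF)

theorem fs_sum {ι : Type} (s : Finset ι) (x : ι → Ell X →L[ℂ] Ell X) (h : ∀ i ∈ s, FS (x i)) :
    FS (∑ i ∈ s, x i) := by
  induction s using Finset.induction_on with
  | empty => rw [Finset.sum_empty]; exact fs_zero
  | insert a s ha ih =>
    rw [Finset.sum_insert ha]
    exact fs_add (h a (Finset.mem_insert_self a s))
      (ih fun i hi => h i (Finset.mem_insert_of_mem hi))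

theorem fs_pm (σ : Equiv.Perm X) : FS (pm σ) := by
  intro F hF
  refine (hF.preimage (f := σ) σ.injective.injOn).subset ?_
  intro p hp
  exact hp

theorem fs_msk (A : Set X) : FS (msk A) := by
  intro F hF
  refine hF.subset ?_
  intro p hp
  by_contra hc
  apply hp
  have h1 : F p = 0 := Function.notMem_support.1 hc
  change msk A F p = 0
  rw [msk_apply, h1, ite_self]

theorem fs2_smul (c : ℂ) {x : Ell X →L[ℂ] Ell X} (hx : FS2 x) : FS2 (c • x) :=
  ⟨fs_smul c hx.1, by rw [map_smulₛₗ]; exact fs_smul _ hx.2⟩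

theorem fs2_add {x y : Ell X →L[ℂ] Ell X} (hx : FS2 x) (hy : FS2 y) : FS2 (x + y) :=
  ⟨fs_add hx.1 hy.1, by rw [map_add]; exact fs_add hx.2 hy.2⟩

theorem fs2_comp {x y : Ell X →L[ℂ] Ell X} (hx : FS2 x) (hy : FS2 y) : FS2 (x ∘L y) :=
  ⟨fs_comp hx.1 hy.1, by
    rw [ContinuousLinearMap.adjoint_comp]; exact fs_comp hy.2 hx.2⟩

theorem fs2_sum {ι : Type} (s : Finset ι) (x : ι → Ell X →L[ℂ] Ell X) (h : ∀ i ∈ s, FS2 (x i)) :
    FS2 (∑ i ∈ s, x i) :=
  ⟨fs_sum s x fun i hi => (h i hi).1, by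
    rw [map_sum]; exact fs_sum s _ fun i hi => (h i hi).2⟩

theorem fs2_pm (σ : Equiv.Perm X) : FS2 (pm σ) :=
  ⟨fs_pm σ, by rw [adjoint_pm]; exact fs_pm _⟩

theorem fs2_msk (A : Set X) : FS2 (msk A) :=
  ⟨fs_msk A, by rw [adjoint_msk]; exact fs_msk _⟩

end basic

section

variable {G : Type} [Group G] {E : Ext G} {I : Type} [Fintype I] (C : Cx E I)

/-- the formula for the coboundary -/
theorem Dh_apply (F : Ell (I × G)) (p : I × G) : C.Dh F p = dop C.D F p := by
  unfold Cx.Dh dop
  rw [sum_op_val, Finset.sum_eq_single p.1]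
  · rw [sum_op_val]
    refine Finset.sum_congr rfl fun k _ => ?_
    rw [sum_op_val]
    refine Finset.sum_congr rfl fun h _ => ?_
    rw [_root_.smul_apply, smul_val, ContinuousLinearMap.comp_apply, msk_apply,
      if_pos (show p ∈ {p' : I × G | p'.1 = p.1} from rfl), pm_apply]
    have hσ : (Equiv.prodCongr (Equiv.swap p.1 k) (Equiv.mulLeft h⁻¹)) p = (k, h⁻¹ * p.2) :=
      Prod.ext (Equiv.swap_apply_left _ _) rfl
    rw [hσ]
  · intro j _ hj
    rw [sum_op_val]
    refine Finset.sum_eq_zero fun k _ => ?_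
    rw [sum_op_val]
    refine Finset.sum_eq_zero fun h _ => ?_
    rw [_root_.smul_apply, smul_val, ContinuousLinearMap.comp_apply, msk_apply,
      if_neg (show p ∉ {p' : I × G | p'.1 = j} from fun h => hj h.symm), mul_zero]
  · intro h
    exact absurd (Finset.mem_univ _) h

theorem Dh_inM {q : G → ℝ} (hq : Wt E q) (F : Ell (I × G)) (hF : InM C q F) :
    InM C q (C.Dh F) := by
  intro j t ht g hg
  rw [Dh_apply, Dh_apply]
  unfold dop
  dsimp only
  rw [Finset.mul_sum]
  refine Finset.sum_congr rfl fun k _ => ?_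
  rw [Finset.mul_sum]
  refine Finset.sum_congr rfl fun h hh => ?_
  have hD : C.D j k h ≠ 0 := Finsupp.mem_support_iff.1 hh
  have hl := C.D_len j k h hD
  have hl' : E.len h⁻¹ = 0 := by rw [E.len_inv, hl]
  have hm := C.D_mir j k h hD t ht
  have hg' : E.len (h⁻¹ * g) < E.len ((h⁻¹ * t * h) * (h⁻¹ * g)) := by
    have : (h⁻¹ * t * h) * (h⁻¹ * g) = h⁻¹ * (t * g) := by group
    rw [this, len_zmul E hl', len_zmul E hl']
    exact hg
  have h1 := hF k (h⁻¹ * t * h) hm (h⁻¹ * g) hg'
  have h2 : (h⁻¹ * t * h) * (h⁻¹ * g) = h⁻¹ * (t * g) := by group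
  have h3 : q (h⁻¹ * t * h) = q t := by
    rw [hq.mul_zero h hl, hq.zero_mul h⁻¹ hl']
  rw [h2, h3] at h1
  rw [h1]
  ring

theorem Dh_Dh : C.Dh ∘L C.Dh = 0 := by
  refine ContinuousLinearMap.ext fun F => ell_ext fun p => ?_
  rw [ContinuousLinearMap.comp_apply, Dh_apply]
  have h1 : (fun p => C.Dh F p) = dop C.D F := funext fun p => Dh_apply C F p
  change dop C.D (fun p => C.Dh F p) p = 0
  rw [h1, C.D_sq]
  rfl

theorem fs2_Dh : FS2 C.Dh := by
  unfold Cx.Dh
  exact fs2_sum _ _ fun j _ => fs2_sum _ _ fun k _ => fs2_sum _ _ fun h _ =>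
    fs2_smul _ (fs2_comp (fs2_msk _) (fs2_pm _))

theorem fs_eps : FS C.eps := by
  unfold Cx.eps
  rw [sub_eq_add_neg, ← neg_one_smul ℂ (msk {p : I × G | ¬ Even (C.deg p.1)})]
  exact fs_add (fs_msk _) (fs_smul _ (fs_msk _))

theorem eps_apply (F : Ell (I × G)) (p : I × G) :
    C.eps F p = (if Even (C.deg p.1) then (1 : ℂ) else -1) * F p := by
  unfold Cx.eps
  rw [_root_.sub_apply, sub_val, msk_apply, msk_apply]
  by_cases hp : Even (C.deg p.1)
  · rw [if_pos hp, if_pos (show p ∈ {p : I × G | Even (C.deg p.1)} from hp),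
      if_neg (show p ∉ {p : I × G | ¬ Even (C.deg p.1)} from fun h => h hp)]
    ring
  · rw [if_neg hp, if_neg (show p ∉ {p : I × G | Even (C.deg p.1)} from hp),
      if_pos (show p ∈ {p : I × G | ¬ Even (C.deg p.1)} from hp)]
    ring

theorem adj_eps : ContinuousLinearMap.adjoint C.eps = C.eps := by
  unfold Cx.eps
  rw [map_sub, adjoint_msk, adjoint_msk]

theorem eps_Dh : C.eps ∘L C.Dh = - (C.Dh ∘L C.eps) := by
  refine ContinuousLinearMap.ext fun F => ell_ext fun p => ?_
  rw [ContinuousLinearMap.comp_apply, _root_.neg_apply, neg_val, ContinuousLinearMap.comp_apply,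
    eps_apply, Dh_apply, Dh_apply]
  unfold dop
  rw [Finset.mul_sum, ← Finset.sum_neg_distrib]
  refine Finset.sum_congr rfl fun k _ => ?_
  rw [Finset.mul_sum, ← Finset.sum_neg_distrib]
  refine Finset.sum_congr rfl fun h hh => ?_
  have hD : C.D p.1 k h ≠ 0 := Finsupp.mem_support_iff.1 hh
  have hd := C.D_deg p.1 k h hD
  rw [eps_apply]
  dsimp only
  by_cases hk : Even (C.deg k)
  · have hj : ¬ Even (C.deg p.1) := by rw [hd, Nat.even_add_one]; exact fun h => h hk
    rw [if_pos hk, if_neg hj]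
    ring
  · have hj : Even (C.deg p.1) := by rw [hd, Nat.even_add_one]; exact hk
    rw [if_neg hk, if_pos hj]
    ring

theorem eps_Ds : C.eps ∘L C.Ds = - (C.Ds ∘L C.eps) := by
  have h := congrArg ContinuousLinearMap.adjoint (eps_Dh C)
  rw [map_neg, ContinuousLinearMap.adjoint_comp, ContinuousLinearMap.adjoint_comp, adj_eps] at h
  have h2 : C.Ds ∘L C.eps = - (C.eps ∘L C.Ds) := h
  rw [h2, neg_neg]

end

/-- **JOB DPROP** -/
theorem t_DPROP (G : Type) [Group G] (E : Ext G) (I : Type) [Fintype I] (C : Cx E I) :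
    S_DPROP G E I C :=
  ⟨Dh_apply C, fun _ hq F hF => Dh_inM C hq F hF, Dh_Dh C, (fs2_Dh C).1, (fs2_Dh C).2, fs_eps C,
    eps_Dh C, eps_Ds C⟩

end

end Pool.Agent.V5helper98.ZD
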