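import Pool.Agent.Q169.ZD.Stm

/-!
# Project ZD, job RIGHT: the right Hecke operators
-/

set_option autoImplicit false

open scoped InnerProductSpace

namespace Pool.Agent.V5helper98.ZD

open Pool.Agent.H496R3.ZS (Ell permIso dl dl_apply inner_dl_left)
open Pool.Agent.Q169.ZD

noncomputable section

open scoped Classical

section

variable {G : Type} [Group G] (E : Ext G)

/-- left multiplication by an element of length zero preserves the length -/
theorem len_zmul {h : G} (hh : E.len h = 0) (g : G) : E.len (h * g) = E.len g := by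
  refine le_antisymm ?_ ?_
  · have := E.len_mul h g
    omega
  · have h1 := E.len_mul h⁻¹ (h * g)
    rw [inv_mul_cancel_left, E.len_inv, hh] at h1
    omega

/-- right multiplication by an element of length zero preserves the length -/
theorem len_mulz {h : G} (hh : E.len h = 0) (g : G) : E.len (g * h) = E.len g := by
  refine le_antisymm ?_ ?_
  · have := E.len_mul g h
    omega
  · have h1 := E.len_mul (g * h) h⁻¹
    rw [mul_inv_cancel_right, E.len_inv, hh] at h1
    omega

theorem inv_of_sq {s : G} (hs : s * s = 1) : s⁻¹ = s := inv_eq_of_mul_eq_one_left hs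

end

section

variable {G : Type} [Group G] {E : Ext G} {I : Type} [Fintype I] {C : Cx E I}

omit [Fintype I] in
theorem rm_inv (h : G) : (rm I h)⁻¹ = rm I h⁻¹ := by
  ext p <;> rfl

theorem add_val {X : Type} (F F' : Ell X) (p : X) : (F + F') p = F p + F' p := rfl

theorem smul_val {X : Type} (c : ℂ) (F : Ell X) (p : X) : (c • F) p = c * F p := rfl

omit [Fintype I] in
theorem rS_apply (q : G → ℝ) (s : G) (F : Ell (I × G)) (p : I × G) :
    rS E I q s F p = ((Real.sqrt (q s) : ℝ) : ℂ) * F (p.1, p.2 * s) +
      ((q s - 1 : ℝ) : ℂ) * (if E.len (p.2 * s) < E.len p.2 then F p else 0) := by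
  unfold rS
  rw [_root_.add_apply, _root_.smul_apply, _root_.smul_apply, add_val, smul_val, smul_val,
    pm_apply, msk_apply, rm_apply]
  by_cases hp : E.len (p.2 * s) < E.len p.2
  · rw [if_pos hp, if_pos (show p ∈ {p : I × G | E.len (p.2 * s) < E.len p.2} from hp)]
  · rw [if_neg hp, if_neg (show p ∉ {p : I × G | E.len (p.2 * s) < E.len p.2} from hp)]

omit [Fintype I] in
theorem rH_apply (h : G) (F : Ell (I × G)) (p : I × G) :
    rH I h F p = F (p.1, p.2 * h) := rfl

omit [Fintype I] in
theorem adj_rS (q : G → ℝ) {s : G} (hs : s ∈ E.S) :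
    ContinuousLinearMap.adjoint (rS E I q s) = rS E I q s := by
  unfold rS
  rw [map_add, map_smulₛₗ, map_smulₛₗ, adjoint_pm, adjoint_msk, rm_inv, inv_of_sq (E.sq s hs)]
  simp

omit [Fintype I] in
theorem adj_rH (h : G) : ContinuousLinearMap.adjoint (rH I h) = rH I h⁻¹ := by
  unfold rH
  rw [adjoint_pm, rm_inv]

theorem inM_rS {q : G → ℝ} (hq : Wt E q) {s : G} (hs : s ∈ E.S) (F : Ell (I × G))
    (hF : InM C q F) : InM C q (rS E I q s F) := by
  intro j t ht g hg
  have htS : t ∈ E.S := C.sub j ht
  rw [rS_apply, rS_apply]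
  dsimp only
  have h0 : F (j, t * g) = ((Real.sqrt (q t) : ℝ) : ℂ) * F (j, g) := hF j t ht g hg
  rcases E.len_muls s hs g with h1 | h1
  · -- `len (g s) > len g`
    have hn1 : ¬ E.len (g * s) < E.len g := by omega
    rcases E.len_muls s hs (t * g) with h2 | h2
    · -- case (i)
      have hn2 : ¬ E.len (t * g * s) < E.len (t * g) := by omega
      have h3 : E.len (t * g) = E.len g + 1 := by
        rcases E.len_smul t htS g with h | h <;> omega
      have h4 : E.len (g * s) < E.len (t * (g * s)) := by
        rw [← mul_assoc]; omega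
      have h5 := hF j t ht (g * s) h4
      rw [if_neg hn1, if_neg hn2, mul_assoc t g s, h5]
      ring
    · -- case (ii)
      have hlt2 : E.len (t * g * s) < E.len (t * g) := by omega
      have h6 : t * g = g * s := E.lift s hs t htS g hg (by omega) hlt2
      have hqq : q t = q s := by
        have a1 := hq.smul t htS g hg
        have a2 := hq.mul s hs g (by omega)
        rw [h6] at a1
        have a3 : q t * q g = q g * q s := a1.symm.trans a2
        have a4 := hq.pos g
        have a5 : (q t - q s) * q g = 0 := by linarith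
        rcases mul_eq_zero.1 a5 with h | h
        · linarith
        · exact absurd h a4.ne'
      have h7 : t * g * s = g := by
        rw [h6, mul_assoc, E.sq s hs, mul_one]
      rw [if_neg hn1, if_pos hlt2, mul_zero, add_zero, h7, ← h6, h0, hqq]
      have hsq : ((Real.sqrt (q s) : ℝ) : ℂ) * ((Real.sqrt (q s) : ℝ) : ℂ) = ((q s : ℝ) : ℂ) := by
        rw [← Complex.ofReal_mul, Real.mul_self_sqrt (hq.pos s).le]
      have hs1 : ((q s - 1 : ℝ) : ℂ) = ((q s : ℝ) : ℂ) - 1 := by push_cast; ring
      rw [hs1, ← hsq]
      ring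
  · -- `len (g s) < len g`
    have hlt1 : E.len (g * s) < E.len g := by omega
    rcases E.len_muls s hs (t * g) with h2 | h2
    · -- case (iv)
      exfalso
      have h3 : E.len (t * g) = E.len g + 1 := by
        rcases E.len_smul t htS g with h | h <;> omega
      have h4 : E.len (t * (g * s)) ≤ E.len (g * s) + 1 := by
        rcases E.len_smul t htS (g * s) with h | h <;> omega
      rw [← mul_assoc] at h4
      omega
    · -- case (iii)
      have hlt2 : E.len (t * g * s) < E.len (t * g) := by omega
      have h3 : E.len (t * g) = E.len g + 1 := by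
        rcases E.len_smul t htS g with h | h <;> omega
      have h4 : E.len (g * s) < E.len (t * (g * s)) := by
        rw [← mul_assoc]; omega
      have h5 := hF j t ht (g * s) h4
      rw [if_pos hlt1, if_pos hlt2, mul_assoc t g s, h5, h0]
      ring

theorem inM_rH {q : G → ℝ} {h : G} (hh : E.len h = 0) (F : Ell (I × G))
    (hF : InM C q F) : InM C q (rH I h F) := by
  intro j t ht g hg
  rw [rH_apply, rH_apply]
  dsimp only
  rw [mul_assoc]
  refine hF j t ht (g * h) ?_
  rw [← mul_assoc, len_mulz E hh, len_mulz E hh]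
  exact hg

end

/-- **JOB RIGHT** -/
theorem t_RIGHT (G : Type) [Group G] (E : Ext G) (I : Type) [Fintype I] (C : Cx E I) :
    S_RIGHT G E I C := fun q hq =>
  ⟨fun _ hs => adj_rS q hs, fun h => adj_rH h, fun _ hs F hF => inM_rS hq hs F hF,
    fun _ hh F hF => inM_rH hh F hF⟩

end

end Pool.Agent.V5helper98.ZD
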